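import Pool.Agent.H49.CE.Targets

/-!
# MP_70000a_co, module B10: the numerical lemma.
-/

set_option autoImplicit false

noncomputable section

namespace CE

namespace B10

theorem choose_bound (n m : ℕ) (hm : 0 < m) (t : ℝ) (ht : (n : ℝ) ≤ t * m) (ht0 : 0 ≤ t) :
    (n.choose m : ℝ) ≤ (Real.exp 1 * t) ^ m := by
  have hm' : (0 : ℝ) < m := by exact_mod_cast hm
  have h1 : (n.choose m : ℝ) ≤ (n : ℝ) ^ m / (m.factorial : ℝ) := Nat.choose_le_pow_div m n
  have h2 : (m : ℝ) ^ m / (m.factorial : ℝ) ≤ Real.exp m :=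
    Real.pow_div_factorial_le_exp (m : ℝ) hm'.le m
  have h3 : (0 : ℝ) < m.factorial := by exact_mod_cast Nat.factorial_pos m
  have h4 : Real.exp m = Real.exp 1 ^ m := by
    rw [← Real.exp_nat_mul, mul_one]
  calc (n.choose m : ℝ) ≤ (n : ℝ) ^ m / (m.factorial : ℝ) := h1
    _ ≤ (t * m) ^ m / (m.factorial : ℝ) := by
        apply div_le_div_of_nonneg_right _ h3.le
        exact pow_le_pow_left₀ (by positivity) ht m
    _ = t ^ m * ((m : ℝ) ^ m / (m.factorial : ℝ)) := by rw [mul_pow]; ring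
    _ ≤ t ^ m * Real.exp 1 ^ m := by
        rw [← h4]
        exact mul_le_mul_of_nonneg_left h2 (by positivity)
    _ = (Real.exp 1 * t) ^ m := by rw [mul_pow]; ring

theorem pow_le_self (t : ℝ) (h0 : 0 ≤ t) (h1 : t ≤ 1) (m : ℕ) (hm : 0 < m) : t ^ m ≤ t := by
  calc t ^ m ≤ t ^ 1 := pow_le_pow_of_le_one h0 h1 hm
    _ = t := pow_one t

theorem ten_le (L : ℝ) (h : 10000000000 ≤ L) : (10 : ℝ) ≤ L ^ ((1 : ℝ) / 10) := by
  have h3 : ((10 : ℝ) ^ (10 : ℝ)) ^ ((1 : ℝ) / 10) = 10 := by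
    rw [← Real.rpow_mul (by norm_num), mul_one_div_cancel (by norm_num), Real.rpow_one]
  have h1 : ((10 : ℝ) ^ (10 : ℝ)) = 10000000000 := by
    have : (10 : ℝ) = ((10 : ℕ) : ℝ) := by norm_num
    rw [this, Real.rpow_natCast]
    norm_num
  rw [h1] at h3
  calc (10 : ℝ) = 10000000000 ^ ((1 : ℝ) / 10) := h3.symm
    _ ≤ L ^ ((1 : ℝ) / 10) := Real.rpow_le_rpow (by norm_num) h (by norm_num)

end B10

set_option maxHeartbeats 1000000 in
/-- Module B10. -/
theorem B10_main : T_NUM := by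
  intro k nA tau L g a Y hk htau hL ha hY hnA hg hmain
  have hk' : (1 : ℝ) ≤ k := by exact_mod_cast hk
  have htau0 : 0 < tau := by linarith
  have hL1 : (1 : ℝ) ≤ L := by
    have : (1 : ℝ) ≤ tau ^ 24 := one_le_pow₀ (by linarith)
    nlinarith
  have hL0 : 0 < L := by linarith
  -- roots
  obtain ⟨S, hS0, hSL, hSt⟩ : ∃ S : ℝ, 0 < S ∧ S ^ 4 = L ∧ 316227 * tau ^ 6 ≤ S := by
    refine ⟨Real.sqrt (Real.sqrt L), Real.sqrt_pos.mpr (Real.sqrt_pos.mpr hL0), ?_, ?_⟩
    · have h1 : Real.sqrt (Real.sqrt L) ^ 2 = Real.sqrt L := Real.sq_sqrt (Real.sqrt_nonneg _)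
      calc Real.sqrt (Real.sqrt L) ^ 4 = (Real.sqrt (Real.sqrt L) ^ 2) ^ 2 := by ring
        _ = L := by rw [h1, Real.sq_sqrt hL0.le]
    · apply Real.le_sqrt_of_sq_le
      apply Real.le_sqrt_of_sq_le
      have h2 : (0 : ℝ) ≤ tau ^ 24 := by positivity
      calc ((316227 * tau ^ 6) ^ 2) ^ 2 = 316227 ^ 4 * tau ^ 24 := by ring
        _ ≤ 10 ^ 22 * tau ^ 24 := by
            apply mul_le_mul_of_nonneg_right _ h2
            norm_num
        _ ≤ L := hL
  have hsq : Real.sqrt L = S ^ 2 := by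
    rw [← hSL]
    rw [show S ^ 4 = (S ^ 2) ^ 2 by ring]
    exact Real.sqrt_sq (by positivity)
  have htau6 : (4096 : ℝ) ≤ tau ^ 6 := by
    calc (4096 : ℝ) = 4 ^ 6 := by norm_num
      _ ≤ tau ^ 6 := pow_le_pow_left₀ (by norm_num) htau 6
  have hS1 : (1000000 : ℝ) ≤ S := by nlinarith
  have hd0 : 0 < dd tau := by unfold dd; positivity
  have hd1 : dd tau ≤ 1 / 2048 := by
    unfold dd
    apply one_div_le_one_div_of_le (by norm_num)
    nlinarith
  have hed : Real.exp (dd tau) ≤ 1.001 := by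
    have h1 := Real.exp_bound_div_one_sub_of_interval hd0.le (by linarith : dd tau < 1)
    refine h1.trans ?_
    rw [div_le_iff₀ (by linarith)]
    linarith
  -- the base
  set E : ℝ := 2 * (2 * Real.exp (dd tau) / (xx tau ^ 2 * Real.sqrt L)) with hE
  have hE0 : 0 ≤ E := by rw [hE]; unfold xx; positivity
  have hES : E ≤ 0.013 / S := by
    have h1 : E = 4096 * Real.exp (dd tau) * tau ^ 6 / S ^ 2 := by
      rw [hE, hsq]
      unfold xx
      field_simp
      ring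
    rw [h1, div_le_div_iff₀ (by positivity) hS0]
    have h2 : 4096 * Real.exp (dd tau) ≤ 4096 * 1.001 := by linarith
    have h3 : 4096 * Real.exp (dd tau) * tau ^ 6 ≤ 4096 * 1.001 * tau ^ 6 :=
      mul_le_mul_of_nonneg_right h2 (by positivity)
    have h4 : 4096 * 1.001 * tau ^ 6 ≤ 0.013 * S := by nlinarith
    calc 4096 * Real.exp (dd tau) * tau ^ 6 * S ≤ (0.013 * S) * S :=
          mul_le_mul_of_nonneg_right (h3.trans h4) hS0.le
      _ = 0.013 * S ^ 2 := by ring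
  set m0 := ⌊(k : ℝ) / (128 * tau ^ 2)⌋₊ + 1 with hm0
  set m1 := ⌊(k : ℝ) / (64 * tau)⌋₊ with hm1
  set m2 := ⌊(k : ℝ) / 8⌋₊ with hm2
  set m3 := ⌊(k : ℝ) / (16 * tau)⌋₊ + 1 with hm3
  set m4 := ⌊(k : ℝ) / 16⌋₊ + 1 with hm4
  have f0 : (k : ℝ) / (128 * tau ^ 2) ≤ m0 := by
    rw [hm0]; push_cast; exact (Nat.lt_floor_add_one _).le
  have f1 : (m1 : ℝ) ≤ (k : ℝ) / (64 * tau) := Nat.floor_le (by positivity)
  have f2 : (m2 : ℝ) ≤ (k : ℝ) / 8 := Nat.floor_le (by positivity)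
  have f3 : (k : ℝ) / (16 * tau) ≤ m3 := by
    rw [hm3]; push_cast; exact (Nat.lt_floor_add_one _).le
  have f4 : (k : ℝ) / 16 ≤ m4 := by
    rw [hm4]; push_cast; exact (Nat.lt_floor_add_one _).le
  have f1' : (k : ℝ) / (64 * tau) ≤ (k : ℝ) / 256 := by
    apply div_le_div_of_nonneg_left (by linarith) (by norm_num) (by linarith)
  have hm1k : m1 ≤ k := by
    have : (m1 : ℝ) ≤ k := by linarith
    exact_mod_cast this
  have hm2k : m2 ≤ k := by
    have : (m2 : ℝ) ≤ k := by linarith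
    exact_mod_cast this
  have hm4k : m4 ≤ k := by
    rcases Nat.lt_or_ge k 2 with h | h
    · have hk1 : k = 1 := by omega
      rw [hm4, hk1]
      norm_num
    · have h2 : (2 : ℝ) ≤ k := by exact_mod_cast h
      have h3 : (⌊(k : ℝ) / 16⌋₊ : ℝ) ≤ (k : ℝ) / 16 := Nat.floor_le (by positivity)
      have h4 : (m4 : ℝ) ≤ k := by rw [hm4]; push_cast; linarith
      exact_mod_cast h4
  have g13 : 4 * m1 ≤ m3 := by
    have h : ((4 * m1 : ℕ) : ℝ) ≤ m3 := by
      push_cast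
      have : 4 * ((k : ℝ) / (64 * tau)) = (k : ℝ) / (16 * tau) := by
        field_simp; ring
      linarith
    exact_mod_cast h
  have g14 : 2 * m1 ≤ m4 := by
    have h : ((2 * m1 : ℕ) : ℝ) ≤ m4 := by push_cast; linarith
    exact_mod_cast h
  -- exponentials
  have hdk : dd tau * k = (k : ℝ) / (128 * tau ^ 2) := by unfold dd; ring
  have e0 : Real.exp (dd tau * k) ≤ Real.exp 1 ^ m0 := by
    rw [← Real.exp_nat_mul, mul_one]
    apply Real.exp_le_exp.mpr
    rw [hdk]; exact f0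
  have e3 : Real.exp (dd tau * k) ≤ Real.exp (1 / 32) ^ m3 := by
    rw [← Real.exp_nat_mul]
    apply Real.exp_le_exp.mpr
    rw [hdk]
    have h1 : (k : ℝ) / (128 * tau ^ 2) = (k : ℝ) / (16 * tau) * (1 / (8 * tau)) := by
      field_simp; ring
    rw [h1]
    apply mul_le_mul f3 _ (by positivity) (by positivity)
    apply one_div_le_one_div_of_le (by norm_num) (by linarith)
  have hexp1 : Real.exp 1 < 2.7182818286 := Real.exp_one_lt_d9
  have hexp32 : Real.exp (1 / 32) ≤ 1.04 := by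
    have h1 := Real.exp_bound_div_one_sub_of_interval (by norm_num : (0:ℝ) ≤ 1 / 32)
      (by norm_num : (1 / 32 : ℝ) < 1)
    refine h1.trans ?_
    norm_num
  have hm0pos : 0 < m0 := Nat.succ_pos _
  have hm3pos : 0 < m3 := Nat.succ_pos _
  have hm4pos : 0 < m4 := Nat.succ_pos _
  clear_value E m0 m1 m2 m3 m4
  have hEsmall : E ≤ 0.000000013 := by
    refine hES.trans ?_
    rw [div_le_iff₀ hS0]
    linarith
  -- first error
  have err0 : 8 * Real.exp (dd tau * k) * E ^ m0 ≤ 1 / 8 := by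
    have h1 : Real.exp (dd tau * k) * E ^ m0 ≤ (Real.exp 1 * E) ^ m0 := by
      rw [mul_pow]
      exact mul_le_mul_of_nonneg_right e0 (by positivity)
    have h2 : Real.exp 1 * E ≤ 0.0000001 := by
      have : Real.exp 1 * E ≤ 2.7182818286 * 0.000000013 :=
        mul_le_mul hexp1.le hEsmall hE0 (by norm_num)
      linarith
    have h3 : (Real.exp 1 * E) ^ m0 ≤ Real.exp 1 * E :=
      B10.pow_le_self _ (by positivity) (by linarith) m0 hm0pos
    linarith
  -- second error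
  have err3 : L ^ m1 * (8 * Real.exp (dd tau * k) * E ^ m3) ≤ 1 / 8 := by
    have h1 : L ^ m1 ≤ S ^ m3 := by
      rw [← hSL, ← pow_mul]
      exact pow_le_pow_right₀ (by linarith) g13
    have h2 : E ^ m3 ≤ (0.013 / S) ^ m3 := pow_le_pow_left₀ hE0 hES m3
    have h3 : L ^ m1 * E ^ m3 ≤ 0.013 ^ m3 := by
      calc L ^ m1 * E ^ m3 ≤ S ^ m3 * (0.013 / S) ^ m3 :=
            mul_le_mul h1 h2 (by positivity) (by positivity)
        _ = 0.013 ^ m3 := by
            rw [← mul_pow]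
            congr 1
            field_simp
    have h4 : Real.exp (dd tau * k) * (L ^ m1 * E ^ m3) ≤ (Real.exp (1 / 32) * 0.013) ^ m3 := by
      rw [mul_pow]
      exact mul_le_mul e3 h3 (by positivity) (by positivity)
    have h5 : (Real.exp (1 / 32) * 0.013) ^ m3 ≤ Real.exp (1 / 32) * 0.013 :=
      B10.pow_le_self _ (by positivity) (by linarith) m3 hm3pos
    calc L ^ m1 * (8 * Real.exp (dd tau * k) * E ^ m3)
        = 8 * (Real.exp (dd tau * k) * (L ^ m1 * E ^ m3)) := by ring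
      _ ≤ 8 * (Real.exp (1 / 32) * 0.013) := by linarith
      _ ≤ 1 / 8 := by linarith
  -- third error
  have err4 : (nA.choose m4 : ℝ) * (L ^ m1 / L ^ m4) ≤ 1 / 4 := by
    have h1 : (nA.choose m4 : ℝ) ≤ (Real.exp 1 * (16 * tau)) ^ m4 := by
      apply B10.choose_bound nA m4 hm4pos (16 * tau) _ (by positivity)
      calc (nA : ℝ) ≤ tau * k := hnA
        _ = 16 * tau * ((k : ℝ) / 16) := by ring
        _ ≤ 16 * tau * m4 := mul_le_mul_of_nonneg_left f4 (by positivity)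
    have h2 : L ^ m1 / L ^ m4 ≤ (1 / S ^ 2) ^ m4 := by
      have h3 : L ^ m1 ≤ (S ^ 2) ^ m4 := by
        have : L = (S ^ 2) ^ 2 := by rw [← hSL]; ring
        rw [this, ← pow_mul]
        exact pow_le_pow_right₀ (one_le_pow₀ (by linarith)) g14
      have h4 : L ^ m4 = (S ^ 2) ^ m4 * (S ^ 2) ^ m4 := by
        rw [← mul_pow, ← hSL]; ring
      have h5 : 0 < (S ^ 2) ^ m4 := pow_pos (pow_pos hS0 2) m4
      rw [h4, one_div, inv_pow]
      generalize (S ^ 2) ^ m4 = Q at h3 h5 ⊢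
      rw [div_le_iff₀ (mul_pos h5 h5), ← mul_assoc, inv_mul_cancel₀ h5.ne', one_mul]
      exact h3
    have h6 : Real.exp 1 * (16 * tau) * (1 / S ^ 2) ≤ 1 / 4 := by
      rw [mul_one_div, div_le_iff₀ (pow_pos hS0 2)]
      have h7 : tau ≤ tau ^ 6 := le_self_pow₀ (by linarith) (by norm_num)
      have h8 : Real.exp 1 * (16 * tau) ≤ 2.7182818286 * (16 * tau) :=
        mul_le_mul_of_nonneg_right hexp1.le (by linarith)
      have h9 : S * 1 ≤ S * S := mul_le_mul_of_nonneg_left (by linarith) hS0.le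
      rw [pow_two]
      linarith
    have h10 : (0 : ℝ) ≤ Real.exp 1 * (16 * tau) * (1 / S ^ 2) := by positivity
    have h11 : 0 ≤ L ^ m1 / L ^ m4 := div_nonneg (pow_nonneg hL0.le _) (pow_nonneg hL0.le _)
    have h12 : 0 ≤ (Real.exp 1 * (16 * tau)) ^ m4 := pow_nonneg (by positivity) _
    calc (nA.choose m4 : ℝ) * (L ^ m1 / L ^ m4)
        ≤ (Real.exp 1 * (16 * tau)) ^ m4 * (1 / S ^ 2) ^ m4 := mul_le_mul h1 h2 h11 h12
      _ = (Real.exp 1 * (16 * tau) * (1 / S ^ 2)) ^ m4 := (mul_pow _ _ _).symm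
      _ ≤ Real.exp 1 * (16 * tau) * (1 / S ^ 2) :=
          B10.pow_le_self _ h10 (by linarith) m4 hm4pos
      _ ≤ 1 / 4 := h6
  -- the main term
  have hgpos : 0 < g := by
    by_contra h
    push Not at h
    have h1 : 0 < L ^ ((k : ℝ) / 4) := Real.rpow_pos_of_pos hL0 _
    have h2 : g * L ^ (2 * k) ≤ 0 := mul_nonpos_of_nonpos_of_nonneg h (by positivity)
    linarith
  have hmt : L ^ (m1 + m2) / L ^ (2 * k) ≤ g / 8 := by
    have h1 : L ^ (m1 + m2) ≤ L ^ ((33 : ℝ) * k / 256) := by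
      rw [← Real.rpow_natCast L (m1 + m2)]
      apply Real.rpow_le_rpow_of_exponent_le hL1
      push_cast
      linarith
    have h2 : (8 : ℝ) ≤ L ^ ((31 : ℝ) * k / 256) := by
      have h4 : (10 : ℝ) ≤ L ^ ((1 : ℝ) / 10) := by
        apply B10.ten_le
        have h5 : (1 : ℝ) ≤ tau ^ 24 := one_le_pow₀ (by linarith)
        have h6 : (10 : ℝ) ^ 22 * 1 ≤ 10 ^ 22 * tau ^ 24 :=
          mul_le_mul_of_nonneg_left h5 (by norm_num)
        linarith
      have h5 : L ^ ((1 : ℝ) / 10) ≤ L ^ ((31 : ℝ) * k / 256) := by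
        apply Real.rpow_le_rpow_of_exponent_le hL1
        linarith
      linarith
    have h6 : L ^ ((k : ℝ) / 4) = L ^ ((33 : ℝ) * k / 256) * L ^ ((31 : ℝ) * k / 256) := by
      rw [← Real.rpow_add hL0]
      congr 1
      ring
    rw [div_le_iff₀ (by positivity)]
    have h7 : 8 * L ^ (m1 + m2) ≤ L ^ ((k : ℝ) / 4) := by
      rw [h6]
      have h8 : 0 ≤ L ^ (m1 + m2) := by positivity
      calc 8 * L ^ (m1 + m2) = L ^ (m1 + m2) * 8 := by ring
        _ ≤ L ^ ((33 : ℝ) * k / 256) * L ^ ((31 : ℝ) * k / 256) :=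
          mul_le_mul h1 h2 (by norm_num) (by positivity)
    linarith
  -- divide the hypothesis by `L ^ (k - m1)`
  have hLk : L ^ k = L ^ (k - m1) * L ^ m1 := by rw [← pow_add]; congr 1; omega
  have hpos1 : 0 < L ^ (k - m1) := by positivity
  have hY1 : Y - 8 * Real.exp (dd tau * k) * E ^ m0 * (g * a) ≤
      a * (L ^ (m1 + m2) / L ^ (2 * k)) +
      L ^ m1 * (8 * Real.exp (dd tau * k) * E ^ m3) * (g * a) +
      (nA.choose m4 : ℝ) * (L ^ m1 / L ^ m4) * Y := by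
    have h1 : a / L ^ (k - m2) = a * (L ^ (m1 + m2) / L ^ (2 * k)) * L ^ (k - m1) := by
      have h2 : L ^ (2 * k) = L ^ (k - m2) * L ^ m2 * (L ^ (k - m1) * L ^ m1) := by
        rw [← pow_add, ← pow_add, ← pow_add]; congr 1; omega
      rw [h2, pow_add]
      field_simp
    have h3 : (nA.choose m4 : ℝ) * L ^ (k - m4) * Y =
        (nA.choose m4 : ℝ) * (L ^ m1 / L ^ m4) * Y * L ^ (k - m1) := by
      have h4 : L ^ (k - m1) * L ^ m1 = L ^ (k - m4) * L ^ m4 := by
        rw [← pow_add, ← pow_add]; congr 1; omega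
      have h5 : L ^ m1 / L ^ m4 * L ^ (k - m1) = L ^ (k - m4) := by
        rw [div_mul_eq_mul_div, mul_comm (L ^ m1), h4]
        field_simp
      calc (nA.choose m4 : ℝ) * L ^ (k - m4) * Y
          = (nA.choose m4 : ℝ) * (L ^ m1 / L ^ m4 * L ^ (k - m1)) * Y := by rw [h5]
        _ = _ := by ring
    have h6 : L ^ k * (8 * Real.exp (dd tau * k) * E ^ m3 * (g * a)) =
        L ^ m1 * (8 * Real.exp (dd tau * k) * E ^ m3) * (g * a) * L ^ (k - m1) := by
      rw [hLk]; ring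
    rw [h1, h3, h6] at hmain
    have h7 : (Y - 8 * Real.exp (dd tau * k) * E ^ m0 * (g * a)) * L ^ (k - m1) ≤
        (a * (L ^ (m1 + m2) / L ^ (2 * k)) +
      L ^ m1 * (8 * Real.exp (dd tau * k) * E ^ m3) * (g * a) +
      (nA.choose m4 : ℝ) * (L ^ m1 / L ^ m4) * Y) * L ^ (k - m1) := by
      refine hmain.trans (le_of_eq ?_)
      ring
    exact le_of_mul_le_mul_right h7 hpos1
  have hga : 0 ≤ g * a := mul_nonneg hgpos.le ha
  have t0 : 8 * Real.exp (dd tau * k) * E ^ m0 * (g * a) ≤ 1 / 8 * (g * a) :=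
    mul_le_mul_of_nonneg_right err0 hga
  have t1 : a * (L ^ (m1 + m2) / L ^ (2 * k)) ≤ a * (g / 8) :=
    mul_le_mul_of_nonneg_left hmt ha
  have t3 : L ^ m1 * (8 * Real.exp (dd tau * k) * E ^ m3) * (g * a) ≤ 1 / 8 * (g * a) :=
    mul_le_mul_of_nonneg_right err3 hga
  have t4 : (nA.choose m4 : ℝ) * (L ^ m1 / L ^ m4) * Y ≤ 1 / 4 * Y :=
    mul_le_mul_of_nonneg_right err4 hY
  nlinarith

end CE
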