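import Pool.Agent.H49.CE.Targets

/-!
# MP_70000a_co, module B3: the count of coloop free sets.
-/

set_option autoImplicit false

noncomputable section

namespace CE

open scoped Classical

namespace B3

/-- The product bound. -/
theorem prod_real (t : ℝ) (ht0 : 0 ≤ t) (ht : t ≤ 1 / 2) (m : ℕ) :
    1 / 4 + (1 / 2 : ℝ) ^ (m + 1) * (if m = 0 then 1 / 2 else 1) ≤
      ∏ l ∈ Finset.range m, (1 - t ^ (l + 1)) := by
  induction m with
  | zero => norm_num
  | succ m ih =>
    rw [Finset.prod_range_succ]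
    rcases Nat.eq_zero_or_pos m with h | h
    · subst h
      norm_num
      linarith
    · have hm : m ≠ 0 := by omega
      simp only [hm, if_false, mul_one, Nat.succ_ne_zero] at ih ⊢
      set P := ∏ l ∈ Finset.range m, (1 - t ^ (l + 1)) with hP
      have h1 : t ^ (m + 1) ≤ (1 / 2 : ℝ) ^ (m + 1) := pow_le_pow_left₀ ht0 ht _
      have h2 : (1 / 2 : ℝ) ^ (m + 1) ≤ 1 / 4 := by
        calc (1 / 2 : ℝ) ^ (m + 1) ≤ (1 / 2 : ℝ) ^ 2 :=
              pow_le_pow_of_le_one (by norm_num) (by norm_num) (by omega)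
          _ = 1 / 4 := by norm_num
      have h3 : (1 / 2 : ℝ) ^ (m + 1 + 1) = (1 / 2 : ℝ) ^ (m + 1) / 2 := by
        rw [pow_succ]; ring
      set s := (1 / 2 : ℝ) ^ (m + 1) with hs
      have hs0 : 0 ≤ s := by positivity
      calc 1 / 4 + (1 / 2 : ℝ) ^ (m + 1 + 1) = 1 / 4 + s / 2 := by rw [h3]
        _ ≤ (1 / 4 + s) * (1 - s) := by nlinarith
        _ ≤ P * (1 - t ^ (m + 1)) := by
            apply mul_le_mul ih (by linarith) (by linarith)
            linarith [hs0, ih]

theorem prod_quarter (t : ℝ) (ht0 : 0 ≤ t) (ht : t ≤ 1 / 2) (m : ℕ) :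
    (1 / 4 : ℝ) ≤ ∏ l ∈ Finset.range m, (1 - t ^ (l + 1)) := by
  refine le_trans ?_ (prod_real t ht0 ht m)
  have : (0 : ℝ) ≤ (1 / 2 : ℝ) ^ (m + 1) * (if m = 0 then 1 / 2 else 1) := by
    split_ifs <;> positivity
  linarith

theorem prod_nat (q m : ℕ) (hq : 2 ≤ q) :
    ((q : ℝ) ^ m) ^ m ≤ 4 * ((∏ i : Fin m, (q ^ m - q ^ (i : ℕ)) : ℕ) : ℝ) := by
  have hq0 : (0 : ℝ) < q := by exact_mod_cast (by omega : 0 < q)
  have h1 : ((∏ i : Fin m, (q ^ m - q ^ (i : ℕ)) : ℕ) : ℝ) =
      ∏ i ∈ Finset.range m, (q : ℝ) ^ m * (1 - (1 / (q : ℝ)) ^ (m - 1 - i + 1)) := by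
    rw [Finset.prod_range, Nat.cast_prod]
    apply Finset.prod_congr rfl
    intro i _
    have hi : (i : ℕ) < m := i.2
    rw [Nat.cast_sub (Nat.pow_le_pow_right (by omega) hi.le)]
    have h2 : m - 1 - (i : ℕ) + 1 = m - i := by omega
    rw [h2]
    push_cast
    have h3 : (q : ℝ) ^ m = (q : ℝ) ^ (i : ℕ) * (q : ℝ) ^ (m - (i : ℕ)) := by
      rw [← pow_add]; congr 1; omega
    rw [one_div, inv_pow, h3]
    field_simp
  rw [h1, Finset.prod_mul_distrib, Finset.prod_const, Finset.card_range,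
    Finset.prod_range_reflect (fun i => 1 - (1 / (q : ℝ)) ^ (i + 1)) m]
  have h4 := prod_quarter (1 / (q : ℝ)) (by positivity)
    (by
      have : (2 : ℝ) ≤ q := by exact_mod_cast hq
      exact one_div_le_one_div_of_le (by norm_num) this) m
  have h5 : (0 : ℝ) ≤ ((q : ℝ) ^ m) ^ m := by positivity
  nlinarith

/-- At least a quarter of the maps to `F^m` are injective on a space of dimension `m`. -/
theorem cnt_inj (F : Type) [Field F] [Fintype F] (W : Type) [AddCommGroup W] [Module F W]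
    [Finite W] (D : Submodule F W) (m : ℕ) (hD : Module.finrank F D = m) :
    (Nat.card (W →ₗ[F] (Fin m → F)) : ℝ) ≤
      4 * (Nat.card {ψ : W →ₗ[F] (Fin m → F) // ∀ w ∈ D, ψ w = 0 → w = 0} : ℝ) := by
  obtain ⟨D', hD'⟩ := Submodule.exists_isCompl D
  have hfin : Module.Finite F W := Module.Finite.of_finite
  let b1 : Module.Basis (Fin m) F D := Module.finBasisOfFinrankEq F D hD
  let b2 : Module.Basis (Fin (Module.finrank F D')) F D' := Module.finBasis F D'
  let b : Module.Basis (Fin m ⊕ Fin (Module.finrank F D')) F W :=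
    (b1.prod b2).map (Submodule.prodEquivOfIsCompl D D' hD')
  have hb1 : ∀ i, b (Sum.inl i) = (b1 i : W) := by
    intro i
    simp [b]
  obtain ⟨e, he⟩ : ∃ e : (W →ₗ[F] (Fin m → F)) ≃
      (Fin m → (Fin m → F)) × (Fin (Module.finrank F D') → (Fin m → F)),
      ∀ ψ : W →ₗ[F] (Fin m → F), ∀ i, (e ψ).1 i = ψ (b1 i : W) := by
    refine ⟨(b.constr F).symm.toEquiv.trans (Equiv.sumArrowEquivProdArrow _ _ _), ?_⟩
    intro ψ i
    simp [Equiv.sumArrowEquivProdArrow, hb1]
  have hgood : ∀ ψ : W →ₗ[F] (Fin m → F), LinearIndependent F (e ψ).1 →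
      ∀ w ∈ D, ψ w = 0 → w = 0 := by
    intro ψ hli w hw hψ
    have h1 : (⟨w, hw⟩ : D) = ∑ i, b1.repr ⟨w, hw⟩ i • b1 i := (b1.sum_repr _).symm
    have h2 : w = ∑ i, b1.repr ⟨w, hw⟩ i • (b1 i : W) := by
      have h := congrArg D.subtype h1
      rw [map_sum] at h
      simpa only [map_smul, Submodule.subtype_apply] using h
    have h3 : ∑ i, b1.repr ⟨w, hw⟩ i • (e ψ).1 i = 0 := by
      have : ψ w = ∑ i, b1.repr ⟨w, hw⟩ i • ψ (b1 i : W) := by
        conv_lhs => rw [h2]
        simp [map_sum]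
      rw [hψ] at this
      rw [this]
      exact Finset.sum_congr rfl (fun i _ => by rw [he])
    have h4 := Fintype.linearIndependent_iff.mp hli _ h3
    rw [h2]
    simp [h4]
  -- cardinalities
  have hc1 : Nat.card {ψ : W →ₗ[F] (Fin m → F) // LinearIndependent F (e ψ).1} =
      (∏ i : Fin m, (Fintype.card F ^ m - Fintype.card F ^ (i : ℕ))) *
        Nat.card (Fin (Module.finrank F D') → (Fin m → F)) := by
    have h1 : {ψ : W →ₗ[F] (Fin m → F) // LinearIndependent F (e ψ).1} ≃
        {s : Fin m → (Fin m → F) // LinearIndependent F s} ×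
          (Fin (Module.finrank F D') → (Fin m → F)) :=
      { toFun := fun p => (⟨(e p.1).1, p.2⟩, (e p.1).2)
        invFun := fun p => ⟨e.symm (p.1.1, p.2), by
          rw [Equiv.apply_symm_apply]; exact p.1.2⟩
        left_inv := fun p => by
          apply Subtype.ext
          show e.symm ((e p.1).1, (e p.1).2) = p.1
          rw [Prod.mk.eta, Equiv.symm_apply_apply]
        right_inv := fun p => by
          apply Prod.ext
          · apply Subtype.ext
            show (e (e.symm (p.1.1, p.2))).1 = p.1.1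
            rw [Equiv.apply_symm_apply]
          · show (e (e.symm (p.1.1, p.2))).2 = p.2
            rw [Equiv.apply_symm_apply] }
    rw [Nat.card_congr h1, Nat.card_prod]
    congr 1
    have h2 := card_linearIndependent (K := F) (V := Fin m → F) (k := m) (by simp)
    rw [h2]
    simp
  have hc2 : Nat.card (W →ₗ[F] (Fin m → F)) =
      (Fintype.card F ^ m) ^ m * Nat.card (Fin (Module.finrank F D') → (Fin m → F)) := by
    rw [Nat.card_congr e, Nat.card_prod]
    congr 1
    simp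
  have hfinH : Finite (W →ₗ[F] (Fin m → F)) := Finite.of_equiv _ e.symm
  have hc3 : Nat.card {ψ : W →ₗ[F] (Fin m → F) // LinearIndependent F (e ψ).1} ≤
      Nat.card {ψ : W →ₗ[F] (Fin m → F) // ∀ w ∈ D, ψ w = 0 → w = 0} := by
    apply Nat.card_le_card_of_injective (fun p => ⟨p.1, hgood p.1 p.2⟩)
    intro p q h
    apply Subtype.ext
    simpa using h
  have hq : 2 ≤ Fintype.card F := Fintype.one_lt_card
  have h5 := prod_nat (Fintype.card F) m hq
  calc (Nat.card (W →ₗ[F] (Fin m → F)) : ℝ)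
      = (((Fintype.card F : ℝ) ^ m) ^ m) *
          (Nat.card (Fin (Module.finrank F D') → (Fin m → F)) : ℝ) := by
        rw [hc2]; push_cast; ring
    _ ≤ (4 * ((∏ i : Fin m, (Fintype.card F ^ m - Fintype.card F ^ (i : ℕ)) : ℕ) : ℝ)) *
          (Nat.card (Fin (Module.finrank F D') → (Fin m → F)) : ℝ) := by
        apply mul_le_mul_of_nonneg_right h5 (by positivity)
    _ = 4 * (Nat.card {ψ : W →ₗ[F] (Fin m → F) // LinearIndependent F (e ψ).1} : ℝ) := by
        rw [hc1]; push_cast; ring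
    _ ≤ _ := by
        have : (Nat.card {ψ : W →ₗ[F] (Fin m → F) // LinearIndependent F (e ψ).1} : ℝ) ≤
          (Nat.card {ψ : W →ₗ[F] (Fin m → F) // ∀ w ∈ D, ψ w = 0 → w = 0} : ℝ) := by
          exact_mod_cast hc3
        linarith

section LA

variable (F : Type) [Field F] {V ι : Type} [AddCommGroup V] [Module F V]

/-- Elements of `sp v S` are combinations. -/
theorem mem_sp (v : ι → V) (S : Finset ι) (u : V) (hu : u ∈ sp F v S) :
    ∃ c : ι → F, u = ∑ i ∈ S, c i • v i := by
  unfold sp at hu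
  rw [Submodule.mem_span_image_finset_iff_exists_fun'] at hu
  obtain ⟨c, hc⟩ := hu
  exact ⟨c, hc.symm⟩

theorem sum_mem_sp (v : ι → V) (S : Finset ι) (c : ι → F) : ∑ i ∈ S, c i • v i ∈ sp F v S :=
  Submodule.sum_mem _ (fun i hi => Submodule.smul_mem _ _
    (Submodule.subset_span ⟨i, Finset.mem_coe.mpr hi, rfl⟩))

theorem sp_mono (v : ι → V) {S T : Finset ι} (h : S ⊆ T) : sp F v S ≤ sp F v T :=
  Submodule.span_mono (Set.image_mono (Finset.coe_subset.mpr h))

/-- Independence mod `W'` excludes dependences. -/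
theorem not_mem_of_ind (v : ι → V) (W' : Submodule F V) (J : Finset ι) (hJ : Ind F v W' J)
    (b : ι) (hb : b ∈ J) (S : Finset ι) (hS : S ⊆ J) (hbS : b ∉ S) :
    v b ∉ W' ⊔ sp F v S := by
  intro h
  obtain ⟨w, hw, s, hs, hws⟩ := Submodule.mem_sup.mp h
  obtain ⟨c, hc⟩ := mem_sp F v S s hs
  have h1 : ∑ i ∈ J, (if i = b then (1 : F) else if i ∈ S then -c i else 0) • v i ∈ W' := by
    have h2 : ∑ i ∈ J, (if i = b then (1 : F) else if i ∈ S then -c i else 0) • v i =
        v b - ∑ i ∈ S, c i • v i := by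
      have h3 : ∀ i ∈ J, (if i = b then (1 : F) else if i ∈ S then -c i else 0) • v i =
          (if i = b then v i else 0) - (if i ∈ S then c i • v i else 0) := by
        intro i _
        by_cases h4 : i = b
        · subst h4
          simp [hbS]
        · by_cases h5 : i ∈ S
          · simp [h4, h5]
          · simp [h4, h5]
      rw [Finset.sum_congr rfl h3, Finset.sum_sub_distrib, Finset.sum_ite_eq' J b, if_pos hb,
        ← Finset.sum_filter, Finset.filter_mem_eq_inter, Finset.inter_eq_right.mpr hS]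
    rw [h2, ← hc, ← hws, add_sub_cancel_right]
    exact hw
  have h6 := hJ _ h1 b hb
  simp at h6

theorem ind_mono (v : ι → V) (W' : Submodule F V) {B J : Finset ι} (h : B ⊆ J)
    (hJ : Ind F v W' J) : Ind F v W' B := by
  intro c hc i hi
  have h1 : ∑ i ∈ J, (if i ∈ B then c i else 0) • v i ∈ W' := by
    have h2 : ∑ i ∈ J, (if i ∈ B then c i else 0) • v i = ∑ i ∈ B, c i • v i := by
      simp only [ite_smul, zero_smul]
      rw [← Finset.sum_filter, Finset.filter_mem_eq_inter, Finset.inter_eq_right.mpr h]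
    rw [h2]; exact hc
  have h3 := hJ _ h1 i (h hi)
  simpa [hi] using h3

/-- Uniqueness of the good set inside an independent set. -/
theorem good_unique (v : ι → V) (W W' : Submodule F V) (J B B' : Finset ι)
    (hJ : Ind F v W' J) (hB : B ⊆ J) (hB' : B' ⊆ J)
    (hcl : ∀ i ∈ B, v i ∈ W ⊔ sp F v (B.erase i)) (hW : W ≤ W' ⊔ sp F v B') : B ⊆ B' := by
  intro b hb
  by_contra hbB'
  have h1 : v b ∈ W' ⊔ sp F v (B' ∪ B.erase b) := by
    have h2 := hcl b hb
    have h3 : W ⊔ sp F v (B.erase b) ≤ W' ⊔ sp F v (B' ∪ B.erase b) := by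
      apply sup_le
      · exact hW.trans (sup_le_sup_left (sp_mono F v Finset.subset_union_left) _)
      · exact (sp_mono F v Finset.subset_union_right).trans le_sup_right
    exact h3 h2
  refine not_mem_of_ind F v W' J hJ b (hB hb) (B' ∪ B.erase b) ?_ ?_ h1
  · exact Finset.union_subset hB' ((Finset.erase_subset _ _).trans hB)
  · simp [hbB']

theorem finrank_sp (v : ι → V) (B : Finset ι) (hB : Ind F v ⊥ B) :
    Module.finrank F (sp F v B) = B.card := by
  have h1 : LinearIndependent F (fun i : B => v i) := by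
    rw [Fintype.linearIndependent_iff]
    intro g hg i
    have h2 : ∑ j ∈ B, (if h : j ∈ B then g ⟨j, h⟩ else 0) • v j ∈ (⊥ : Submodule F V) := by
      rw [Submodule.mem_bot, ← hg, ← Finset.sum_coe_sort B]
      apply Finset.sum_congr rfl
      intro j _
      simp
    have h3 := hB _ h2 i i.2
    simpa using h3
  have h4 : sp F v B = Submodule.span F (Set.range (fun i : B => v i)) := by
    unfold sp
    congr 1
    ext u
    simp
  rw [h4, finrank_span_eq_card h1]
  simp

theorem ind_of_disj (v : ι → V) (W' : Submodule F V) (B : Finset ι) (hB : Ind F v ⊥ B)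
    (hd : W' ⊓ sp F v B = ⊥) : Ind F v W' B := by
  intro c hc
  apply hB c
  rw [← hd]
  exact ⟨hc, sum_mem_sp F v B c⟩

end LA

section MAIN

variable (F : Type) [Field F] [Fintype F] {V ι : Type} [AddCommGroup V] [Module F V] [Finite V]

/-- `D = W ∩ sp B`, seen inside `W`. -/
theorem finrank_D (v : ι → V) (N : Finset ι) (W : Submodule F V) (j m : ℕ) (B : Finset ι)
    (hB : B ∈ BB F v N W j m) :
    Module.finrank F ((sp F v B).comap W.subtype) = m := by
  have hfin : Module.Finite F V := Module.Finite.of_finite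
  simp only [BB, Finset.mem_filter, Finset.mem_powerset] at hB
  obtain ⟨hBN, hind, -, hcard, hrank, -⟩ := hB
  have h1 := Submodule.finrank_sup_add_finrank_inf_eq W (sp F v B)
  rw [finrank_sp F v B hind, hcard, hrank] at h1
  have h2 : Module.finrank F ((sp F v B).comap W.subtype) =
      Module.finrank F (W ⊓ sp F v B : Submodule F V) := by
    rw [← Submodule.map_comap_subtype]
    exact (Submodule.finrank_map_subtype_eq _ _).symm
  omega

/-- The bound for one `ψ`. -/
theorem per_psi (hZ1 : T_Z1) (hZ2 : T_Z2) (v : ι → V) (N : Finset ι) (x d : ℝ) (hx : 0 < x)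
    (hHF : HF F v N x d) (W : Submodule F V) (j m : ℕ) (ψ : W →ₗ[F] (Fin m → F)) :
    ((((BB F v N W j m).filter (fun B => ∀ w ∈ (sp F v B).comap W.subtype, ψ w = 0 → w = 0)).card
      : ℕ) : ℝ) * x ^ (j + m) ≤ Real.exp (d * ((Module.finrank F W : ℝ) + j)) := by
  have hfin : Module.Finite F V := Module.Finite.of_finite
  set G := (BB F v N W j m).filter (fun B => ∀ w ∈ (sp F v B).comap W.subtype, ψ w = 0 → w = 0)
    with hG
  set W' : Submodule F V := (LinearMap.ker ψ).map W.subtype with hW'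
  have hW'W : W' ≤ W := Submodule.map_subtype_le W _
  have hdisj : ∀ B ∈ G, W' ⊓ sp F v B = ⊥ := by
    intro B hB
    rw [eq_bot_iff]
    rintro u ⟨hu1, hu2⟩
    obtain ⟨w, hw, rfl⟩ := hu1
    have h1 := (Finset.mem_filter.mp hB).2 w hu2 hw
    rw [h1]
    simp
  have hBB : ∀ B ∈ G, B ⊆ N ∧ Ind F v ⊥ B ∧ B.card = j + m ∧
      Module.finrank F (W ⊔ sp F v B : Submodule F V) = Module.finrank F W + j ∧
      ∀ i ∈ B, v i ∈ W ⊔ sp F v (B.erase i) := by
    intro B hB
    have h1 := (Finset.mem_filter.mp hB).1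
    simp only [BB, Finset.mem_filter, Finset.mem_powerset] at h1
    exact ⟨h1.1, h1.2.1, h1.2.2.2.1, h1.2.2.2.2.1, h1.2.2.2.2.2⟩
  have hind : ∀ B ∈ G, Ind F v W' B := fun B hB =>
    ind_of_disj F v W' B (hBB B hB).2.1 (hdisj B hB)
  have hWle : ∀ B ∈ G, W ≤ W' ⊔ sp F v B := by
    intro B hB u hu
    have hD := finrank_D F v N W j m B (Finset.mem_filter.mp hB).1
    set D := (sp F v B).comap W.subtype with hDdef
    have hinj : Function.Injective (ψ.comp D.subtype) := by
      rw [← LinearMap.ker_eq_bot, LinearMap.ker_eq_bot']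
      intro w hw
      apply Subtype.ext
      exact (Finset.mem_filter.mp hB).2 w w.2 hw
    have hsurj : Function.Surjective (ψ.comp D.subtype) := by
      rw [← LinearMap.injective_iff_surjective_of_finrank_eq_finrank]
      · exact hinj
      · rw [hD]; simp
    obtain ⟨d', hd'⟩ := hsurj (ψ ⟨u, hu⟩)
    have h2 : ψ (⟨u, hu⟩ - (d' : W)) = 0 := by
      rw [map_sub, ← hd']; simp
    have h3 : u = ((⟨u, hu⟩ - (d' : W) : W) : V) + ((d' : W) : V) := by simp
    rw [h3]
    apply Submodule.add_mem_sup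
    · exact ⟨_, h2, rfl⟩
    · exact d'.2
  have hsup : ∀ B ∈ G, W' ⊔ sp F v B = W ⊔ sp F v B := by
    intro B hB
    apply le_antisymm
    · exact sup_le_sup_right hW'W _
    · exact sup_le (hWle B hB) le_sup_right
  have huniq : ∀ J : Finset ι, Ind F v W' J → (G.filter (fun B => B ⊆ J)).card ≤ 1 := by
    intro J hJ
    rw [Finset.card_le_one]
    intro B hB B' hB'
    rw [Finset.mem_filter] at hB hB'
    apply Finset.Subset.antisymm
    · exact good_unique F v W W' J B B' hJ hB.2 hB'.2 (hBB B hB.1).2.2.2.2 (hWle B' hB'.1)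
    · exact good_unique F v W W' J B' B hJ hB'.2 hB.2 (hBB B' hB'.1).2.2.2.2 (hWle B hB.1)
  have hsum : ∑ B ∈ G, x ^ (j + m) * ZZ F v N x (W ⊔ sp F v B) ≤ ZZ F v N x W' := by
    have h1 : ∀ B ∈ G, x ^ (j + m) * ZZ F v N x (W ⊔ sp F v B) =
        ∑ J ∈ N.powerset.filter (fun J => Ind F v W' J ∧ B ⊆ J), x ^ J.card := by
      intro B hB
      rw [hZ2 F V ι v N x W' B (hBB B hB).1 (hind B hB), hsup B hB, (hBB B hB).2.2.1]
    rw [Finset.sum_congr rfl h1]
    rw [Finset.sum_comm' (t' := N.powerset.filter (Ind F v W'))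
      (s' := fun J => G.filter (fun B => B ⊆ J))]
    · unfold ZZ
      apply Finset.sum_le_sum
      intro J hJ
      rw [Finset.sum_const, nsmul_eq_mul]
      have h2 := huniq J (Finset.mem_filter.mp hJ).2
      have h3 : (((G.filter (fun B => B ⊆ J)).card : ℕ) : ℝ) ≤ 1 := by exact_mod_cast h2
      have h4 : (0 : ℝ) ≤ x ^ J.card := by positivity
      nlinarith
    · intro B J
      simp only [Finset.mem_filter]
      tauto
  have hZpos : 0 < ZZ F v N x ⊥ := lt_of_lt_of_le one_pos ((hZ1 F V ι v N x hx.le).2.1 ⊥)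
  have hZle : ZZ F v N x W' ≤ ZZ F v N x ⊥ := (hZ1 F V ι v N x hx.le).1 ⊥ W' bot_le
  have hHFB : ∀ B ∈ G, ZZ F v N x ⊥ ≤
      Real.exp (d * ((Module.finrank F W : ℝ) + j)) * ZZ F v N x (W ⊔ sp F v B) := by
    intro B hB
    have h1 := hHF (W ⊔ sp F v B)
    rw [(hBB B hB).2.2.2.1] at h1
    push_cast at h1
    exact h1
  set e := Real.exp (d * ((Module.finrank F W : ℝ) + j)) with he
  have he0 : 0 < e := Real.exp_pos _
  have hxp : 0 < x ^ (j + m) := pow_pos hx _
  have hfinal : (G.card : ℝ) * x ^ (j + m) * ZZ F v N x ⊥ ≤ e * ZZ F v N x ⊥ := by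
    calc (G.card : ℝ) * x ^ (j + m) * ZZ F v N x ⊥
        = ∑ B ∈ G, x ^ (j + m) * ZZ F v N x ⊥ := by
          rw [Finset.sum_const, nsmul_eq_mul]; ring
      _ ≤ ∑ B ∈ G, x ^ (j + m) * (e * ZZ F v N x (W ⊔ sp F v B)) := by
          apply Finset.sum_le_sum
          intro B hB
          exact mul_le_mul_of_nonneg_left (hHFB B hB) hxp.le
      _ = e * ∑ B ∈ G, x ^ (j + m) * ZZ F v N x (W ⊔ sp F v B) := by
          rw [Finset.mul_sum]
          exact Finset.sum_congr rfl (fun B _ => by ring)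
      _ ≤ e * ZZ F v N x W' := mul_le_mul_of_nonneg_left hsum he0.le
      _ ≤ e * ZZ F v N x ⊥ := mul_le_mul_of_nonneg_left hZle he0.le
  exact le_of_mul_le_mul_right hfinal hZpos

end MAIN

end B3

/-- Module B3. -/
theorem B3_main (hZ1 : T_Z1) (hZ2 : T_Z2) : T_CNT := by
  intro F _ _ V _ _ _ ι v N x d hx hx1 hd hHF W j m
  have hfin : Module.Finite F V := Module.Finite.of_finite
  have hfinH : Finite (W →ₗ[F] (Fin m → F)) :=
    Finite.of_injective (fun ψ : W →ₗ[F] (Fin m → F) => (ψ : W → (Fin m → F)))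
      DFunLike.coe_injective
  let _ : Fintype (W →ₗ[F] (Fin m → F)) := Fintype.ofFinite _
  set H := (Finset.univ : Finset (W →ₗ[F] (Fin m → F))) with hH
  have hHcard : (H.card : ℝ) = (Nat.card (W →ₗ[F] (Fin m → F)) : ℝ) := by
    rw [hH, Finset.card_univ, Nat.card_eq_fintype_card]
  have hHpos : (0 : ℝ) < H.card := by
    have : 0 < H.card := Finset.card_pos.mpr ⟨0, Finset.mem_univ _⟩
    exact_mod_cast this
  set e := Real.exp (d * ((Module.finrank F W : ℝ) + j)) with he
  set P : Finset ι → (W →ₗ[F] (Fin m → F)) → Prop :=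
    fun B ψ => ∀ w ∈ (sp F v B).comap W.subtype, ψ w = 0 → w = 0 with hP
  have h1 : ∀ ψ ∈ H, (((BB F v N W j m).filter (fun B => P B ψ)).card : ℝ) * x ^ (j + m) ≤ e :=
    fun ψ _ => B3.per_psi F hZ1 hZ2 v N x d hx hHF W j m ψ
  have h2 : ∀ B ∈ BB F v N W j m, (H.card : ℝ) ≤ 4 * ((H.filter (fun ψ => P B ψ)).card : ℝ) := by
    intro B hB
    have h3 := B3.cnt_inj F W ((sp F v B).comap W.subtype) m (B3.finrank_D F v N W j m B hB)
    rw [hHcard]
    refine h3.trans (le_of_eq ?_)
    congr 2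
    rw [Nat.card_eq_fintype_card, Fintype.card_subtype]
  have h4 : ∑ B ∈ BB F v N W j m, ((H.filter (fun ψ => P B ψ)).card : ℝ) =
      ∑ ψ ∈ H, (((BB F v N W j m).filter (fun B => P B ψ)).card : ℝ) := by
    have := Finset.sum_card_bipartiteAbove_eq_sum_card_bipartiteBelow (s := BB F v N W j m)
      (t := H) P
    unfold Finset.bipartiteAbove Finset.bipartiteBelow at this
    exact_mod_cast this
  have h5 : ((BB F v N W j m).card : ℝ) * (H.card : ℝ) * x ^ (j + m) ≤ 4 * ((H.card : ℝ) * e) := by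
    calc ((BB F v N W j m).card : ℝ) * (H.card : ℝ) * x ^ (j + m)
        = (∑ B ∈ BB F v N W j m, (H.card : ℝ)) * x ^ (j + m) := by
          rw [Finset.sum_const, nsmul_eq_mul]
      _ ≤ (∑ B ∈ BB F v N W j m, 4 * ((H.filter (fun ψ => P B ψ)).card : ℝ)) * x ^ (j + m) := by
          apply mul_le_mul_of_nonneg_right (Finset.sum_le_sum h2) (by positivity)
      _ = 4 * ∑ ψ ∈ H, (((BB F v N W j m).filter (fun B => P B ψ)).card : ℝ) * x ^ (j + m) := by
          rw [← Finset.mul_sum, h4, ← Finset.sum_mul]; ring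
      _ ≤ 4 * ∑ ψ ∈ H, e := by
          apply mul_le_mul_of_nonneg_left (Finset.sum_le_sum h1) (by norm_num)
      _ = 4 * ((H.card : ℝ) * e) := by rw [Finset.sum_const, nsmul_eq_mul]
  have h6 : (((BB F v N W j m).card : ℝ) * x ^ (j + m)) * (H.card : ℝ) ≤ (4 * e) * (H.card : ℝ) := by
    calc _ = ((BB F v N W j m).card : ℝ) * (H.card : ℝ) * x ^ (j + m) := by ring
      _ ≤ 4 * ((H.card : ℝ) * e) := h5
      _ = _ := by ring
  exact le_of_mul_le_mul_right h6 hHpos

end CE
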